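import Pool.Agent.H3.LeeD

open Matrix

namespace Pool.Agent.Results.MP_46ffdd_an.LeeConcave

/-- `|X| = (X^* X)^{1/2}`, through the functional calculus of the Hermitian matrix `X^* X`. -/
noncomputable def absM {n : ℕ} (X : Matrix (Fin n) (Fin n) ℂ) : Matrix (Fin n) (Fin n) ℂ :=
  cfc Real.sqrt (Xᴴ * X)

/-- The Frobenius norm `(tr X^* X)^{1/2}`. -/
noncomputable def frob {n : ℕ} (X : Matrix (Fin n) (Fin n) ℂ) : ℝ :=
  Real.sqrt (Matrix.trace (Xᴴ * X)).re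

theorem result (n : ℕ) (A B : Matrix (Fin n) (Fin n) ℂ) (f : ℝ → ℝ)
    (hf : ConcaveOn ℝ (Set.Ici 0) f) (h0 : ∀ t, 0 ≤ t → 0 ≤ f t) :
    frob (cfc f (absM (A + B))) ≤
      Real.sqrt ((1 + Real.sqrt 2) / 2) * frob (cfc f (absM A) + cfc f (absM B)) := by
  have h := H3Lee.main A B hf h0
  unfold frob
  rw [← Real.sqrt_mul (by positivity)]
  exact Real.sqrt_le_sqrt h

end Pool.Agent.Results.MP_46ffdd_an.LeeConcave
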